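import Pool.Agent.Helper4.BT.Defs

/-! Blocks BT-UINTa, BT-UINTb: integrals of the bubbles in dimension six. -/

namespace Pool.Helper4.BT

open MeasureTheory Metric Set

theorem UINT_finrank : Module.finrank ℝ E = 6 := by simp

theorem UINT_A_pos {μ : ℝ} (hμ : 0 < μ) (z x : E) : 0 < A μ z x := by
  unfold A; positivity

theorem UINT_U_nonneg (μ : ℝ) (z x : E) : 0 ≤ U μ z x := by
  unfold U; positivity

theorem UINT_continuous_U {μ : ℝ} (hμ : 0 < μ) (z : E) : Continuous (U μ z) := by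
  unfold U
  refine Continuous.div (by fun_prop) ?_ ?_
  · unfold A; fun_prop
  · intro x
    exact (pow_pos (UINT_A_pos hμ z x) 2).ne'

/-- Scaling of the bubble. -/
theorem UINT_scale {μ : ℝ} (hμ : 0 < μ) (z x : E) :
    U μ z x = (μ ^ 2)⁻¹ * U 1 0 (μ⁻¹ • (x - z)) := by
  unfold U A
  rw [sub_zero, norm_smul, norm_inv, Real.norm_of_nonneg hμ.le]
  have h : μ ^ 2 + ‖x - z‖ ^ 2 = μ ^ 2 * (1 ^ 2 + (μ⁻¹ * ‖x - z‖) ^ 2) := by
    field_simp
  rw [h]
  have h1 : (1 ^ 2 + (μ⁻¹ * ‖x - z‖) ^ 2) ≠ 0 := by positivity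
  field_simp

/-- Change of variables. -/
theorem UINT_cv {μ : ℝ} (hμ : 0 < μ) (z : E) (f : E → ℝ) :
    ∫ x, f (μ⁻¹ • (x - z)) = μ ^ 6 * ∫ w, f w := by
  rw [integral_sub_right_eq_self (fun x => f (μ⁻¹ • x)) z,
    Measure.integral_comp_inv_smul, UINT_finrank, abs_of_pos (pow_pos hμ 6), smul_eq_mul]

theorem UINT_int_cv {μ : ℝ} (hμ : 0 < μ) (z : E) {f : E → ℝ} (hf : Integrable f) :
    Integrable (fun x => f (μ⁻¹ • (x - z))) := by
  have h := hf.comp_smul (inv_ne_zero hμ.ne')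
  exact h.comp_sub_right z

theorem UINT_integrable_aux {r : ℝ} (hr : 6 < r) :
    Integrable (fun w : E => (1 + ‖w‖ ^ 2) ^ (-r / 2)) := by
  apply integrable_rpow_neg_one_add_norm_sq
  rw [UINT_finrank]
  exact_mod_cast hr

theorem UINT_sq_one : Integrable (fun w : E => U 1 0 w ^ 2) := by
  have h := (UINT_integrable_aux (r := 8) (by norm_num)).const_mul 576
  refine h.congr (Filter.Eventually.of_forall fun w => ?_)
  have hp : 0 < 1 + ‖w‖ ^ 2 := by positivity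
  have e : (-8 : ℝ) / 2 = ((-4 : ℤ) : ℝ) := by norm_num
  simp only [e, Real.rpow_intCast]
  unfold U A
  rw [sub_zero]
  simp only [one_pow, zpow_neg]
  have e2 : (1 + ‖w‖ ^ 2) ^ (4 : ℤ) = (1 + ‖w‖ ^ 2) ^ 4 := by norm_cast
  rw [e2]
  field_simp
  ring

theorem UINT_cube_one : Integrable (fun w : E => U 1 0 w ^ 3) := by
  have h := (UINT_integrable_aux (r := 12) (by norm_num)).const_mul (24 ^ 3)
  refine h.congr (Filter.Eventually.of_forall fun w => ?_)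
  have hp : 0 < 1 + ‖w‖ ^ 2 := by positivity
  have e : (-12 : ℝ) / 2 = ((-6 : ℤ) : ℝ) := by norm_num
  simp only [e, Real.rpow_intCast]
  unfold U A
  rw [sub_zero]
  simp only [one_pow, zpow_neg]
  have e2 : (1 + ‖w‖ ^ 2) ^ (6 : ℤ) = (1 + ‖w‖ ^ 2) ^ 6 := by norm_cast
  rw [e2]
  field_simp

theorem UINT_dist_one : Integrable (fun w : E => U 1 0 w ^ 2 * ‖w‖) := by
  have h := (UINT_integrable_aux (r := 7) (by norm_num)).const_mul 576
  refine h.mono' ?_ ?_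
  · exact (((UINT_continuous_U one_pos 0).pow 2).mul continuous_norm).aestronglyMeasurable
  · refine Filter.Eventually.of_forall fun w => ?_
    have hp : 0 < 1 + ‖w‖ ^ 2 := by positivity
    rw [Real.norm_of_nonneg (by positivity)]
    have e : (-7 : ℝ) / 2 = ((-4 : ℤ) : ℝ) + 1 / 2 := by norm_num
    rw [e, Real.rpow_add hp, Real.rpow_intCast, ← Real.sqrt_eq_rpow]
    have e2 : (1 + ‖w‖ ^ 2) ^ (-4 : ℤ) = ((1 + ‖w‖ ^ 2) ^ 4)⁻¹ := by
      rw [zpow_neg]; norm_cast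
    rw [e2]
    have e3 : U 1 0 w ^ 2 = 576 * ((1 + ‖w‖ ^ 2) ^ 4)⁻¹ := by
      unfold U A
      rw [sub_zero]
      simp only [one_pow]
      field_simp
      ring
    rw [e3, mul_assoc]
    have h4 : ‖w‖ ≤ √(1 + ‖w‖ ^ 2) := Real.le_sqrt_of_sq_le (by linarith)
    gcongr

theorem I0_pos : 0 < I0 := by
  unfold I0
  rw [integral_pos_iff_support_of_nonneg (fun w => sq_nonneg _) UINT_sq_one]
  have h : Function.support (fun y : E => U 1 0 y ^ 2) = univ := by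
    rw [Function.support_eq_univ]
    intro y
    unfold U A
    positivity
  rw [h]
  exact Measure.measure_univ_pos.2 (NeZero.ne _)

theorem integral_U_sq {μ : ℝ} (hμ : 0 < μ) (z : E) :
    Integrable (fun x => U μ z x ^ 2) ∧ ∫ x, U μ z x ^ 2 = I0 * μ ^ 2 := by
  have h : (fun x => U μ z x ^ 2) =
      fun x => ((μ ^ 2)⁻¹) ^ 2 * (fun w : E => U 1 0 w ^ 2) (μ⁻¹ • (x - z)) := by
    funext x
    rw [UINT_scale hμ, mul_pow]
  rw [h]
  refine ⟨(UINT_int_cv hμ z UINT_sq_one).const_mul _, ?_⟩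
  rw [integral_const_mul, UINT_cv hμ z (fun w : E => U 1 0 w ^ 2)]
  unfold I0
  field_simp

theorem integral_U_cube : ∃ C : ℝ, 0 < C ∧ ∀ (μ : ℝ) (z : E), 0 < μ →
    Integrable (fun x => U μ z x ^ 3) ∧ ∫ x, U μ z x ^ 3 = C := by
  refine ⟨∫ w : E, U 1 0 w ^ 3, ?_, ?_⟩
  · rw [integral_pos_iff_support_of_nonneg (fun w => pow_nonneg (UINT_U_nonneg _ _ _) 3)
      UINT_cube_one]
    have h : Function.support (fun y : E => U 1 0 y ^ 3) = univ := by
      rw [Function.support_eq_univ]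
      intro y
      unfold U A
      positivity
    rw [h]
    exact Measure.measure_univ_pos.2 (NeZero.ne _)
  · intro μ z hμ
    have h : (fun x => U μ z x ^ 3) =
        fun x => ((μ ^ 2)⁻¹) ^ 3 * (fun w : E => U 1 0 w ^ 3) (μ⁻¹ • (x - z)) := by
      funext x
      rw [UINT_scale hμ, mul_pow]
    rw [h]
    refine ⟨(UINT_int_cv hμ z UINT_cube_one).const_mul _, ?_⟩
    rw [integral_const_mul, UINT_cv hμ z (fun w : E => U 1 0 w ^ 3)]
    field_simp

theorem integral_U_sq_dist : ∃ C : ℝ, 0 < C ∧ ∀ (μ : ℝ) (z : E), 0 < μ →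
    Integrable (fun x => U μ z x ^ 2 * ‖x - z‖) ∧
    ∫ x, U μ z x ^ 2 * ‖x - z‖ ≤ C * μ ^ 3 := by
  have h0 : 0 ≤ ∫ w : E, U 1 0 w ^ 2 * ‖w‖ :=
    integral_nonneg fun w => mul_nonneg (sq_nonneg _) (norm_nonneg _)
  refine ⟨(∫ w : E, U 1 0 w ^ 2 * ‖w‖) + 1, by linarith, ?_⟩
  intro μ z hμ
  have h : (fun x => U μ z x ^ 2 * ‖x - z‖) =
      fun x => (((μ ^ 2)⁻¹) ^ 2 * μ) *
        (fun w : E => U 1 0 w ^ 2 * ‖w‖) (μ⁻¹ • (x - z)) := by
    funext x
    rw [UINT_scale hμ, mul_pow]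
    simp only [norm_smul, norm_inv, Real.norm_of_nonneg hμ.le]
    field_simp
  rw [h]
  refine ⟨(UINT_int_cv hμ z UINT_dist_one).const_mul _, ?_⟩
  rw [integral_const_mul, UINT_cv hμ z (fun w : E => U 1 0 w ^ 2 * ‖w‖)]
  have e : ((μ ^ 2)⁻¹) ^ 2 * μ * (μ ^ 6 * ∫ w : E, U 1 0 w ^ 2 * ‖w‖) =
      (∫ w : E, U 1 0 w ^ 2 * ‖w‖) * μ ^ 3 := by
    field_simp
  rw [e]
  have h3 : 0 < μ ^ 3 := by positivity
  nlinarith

/-- Comparison of the bubble with the bubble of scale `K μ` far from the centre. -/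
theorem UINT_cmp {μ K : ℝ} (hμ : 0 < μ) (hK : 0 < K) {z x : E} (h : K * μ ≤ ‖x - z‖) :
    U μ z x ≤ 4 / K ^ 2 * U (K * μ) z x := by
  have hKμ : 0 < K * μ := by positivity
  have hr : 0 < ‖x - z‖ := lt_of_lt_of_le hKμ h
  have h1 : ‖x - z‖ ^ 2 ≤ A μ z x := by
    unfold A
    nlinarith [sq_nonneg μ]
  have h2 : A (K * μ) z x ≤ 2 * ‖x - z‖ ^ 2 := by
    unfold A
    nlinarith [mul_self_le_mul_self hKμ.le h]
  have h3 : A (K * μ) z x ≤ 2 * A μ z x := by linarith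
  have p1 := UINT_A_pos hμ z x
  have p2 := UINT_A_pos hKμ z x
  unfold U
  have e : 4 / K ^ 2 * (24 * (K * μ) ^ 2 / A (K * μ) z x ^ 2) =
      24 * μ ^ 2 * (4 / A (K * μ) z x ^ 2) := by
    field_simp
  rw [e, div_eq_mul_inv]
  have h4 : (A μ z x ^ 2)⁻¹ ≤ 4 / A (K * μ) z x ^ 2 := by
    rw [inv_eq_one_div, div_le_div_iff₀ (by positivity) (by positivity)]
    nlinarith [mul_self_le_mul_self p2.le h3]
  exact mul_le_mul_of_nonneg_left h4 (by positivity)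

theorem integral_U_sq_tail : ∃ C : ℝ, 0 < C ∧ ∀ (μ K : ℝ) (z : E), 0 < μ → 0 < K →
    ∫ x in (closedBall z (K * μ))ᶜ, U μ z x ^ 2 ≤ C * μ ^ 2 / K ^ 2 := by
  refine ⟨16 * I0, by have := I0_pos; positivity, ?_⟩
  intro μ K z hμ hK
  have hKμ : 0 < K * μ := by positivity
  have hi := integral_U_sq hKμ z
  have hj := integral_U_sq hμ z
  have h1 : ∫ x in (closedBall z (K * μ))ᶜ, U μ z x ^ 2 ≤
      ∫ x in (closedBall z (K * μ))ᶜ, 16 / K ^ 4 * U (K * μ) z x ^ 2 := by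
    refine setIntegral_mono_on hj.1.integrableOn (hi.1.const_mul _).integrableOn
      measurableSet_closedBall.compl ?_
    intro x hx
    have hx' : K * μ ≤ ‖x - z‖ := by
      rw [mem_compl_iff, mem_closedBall, dist_eq_norm, not_le] at hx
      exact hx.le
    have h2 := UINT_cmp hμ hK hx'
    have h3 := pow_le_pow_left₀ (UINT_U_nonneg _ _ _) h2 2
    refine h3.trans (le_of_eq ?_)
    rw [mul_pow, div_pow]
    norm_num
    left
    ring
  have h2 : ∫ x in (closedBall z (K * μ))ᶜ, 16 / K ^ 4 * U (K * μ) z x ^ 2 ≤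
      ∫ x, 16 / K ^ 4 * U (K * μ) z x ^ 2 :=
    setIntegral_le_integral (hi.1.const_mul _)
      (Filter.Eventually.of_forall fun x => by positivity)
  refine (h1.trans h2).trans (le_of_eq ?_)
  rw [integral_const_mul, hi.2]
  field_simp

theorem integral_U_cube_tail : ∀ ε : ℝ, 0 < ε → ∃ K : ℝ, 1 ≤ K ∧ ∀ (μ : ℝ) (z : E), 0 < μ →
    ∫ x in {x | K * μ ≤ ‖x - z‖}, U μ z x ^ 3 ≤ ε := by
  intro ε hε
  obtain ⟨C, hC, hcube⟩ := integral_U_cube
  refine ⟨max 1 (64 * C / ε), le_max_left _ _, ?_⟩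
  set K := max 1 (64 * C / ε) with hKdef
  have hK1 : 1 ≤ K := le_max_left _ _
  have hK2 : 64 * C / ε ≤ K := le_max_right _ _
  have hK : 0 < K := by linarith
  intro μ z hμ
  have hKμ : 0 < K * μ := by positivity
  have hi := hcube (K * μ) z hKμ
  have hj := hcube μ z hμ
  have hmeas : MeasurableSet {x : E | K * μ ≤ ‖x - z‖} :=
    measurableSet_le measurable_const (by fun_prop)
  have h1 : ∫ x in {x | K * μ ≤ ‖x - z‖}, U μ z x ^ 3 ≤
      ∫ x in {x | K * μ ≤ ‖x - z‖}, 64 / K ^ 6 * U (K * μ) z x ^ 3 := by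
    refine setIntegral_mono_on hj.1.integrableOn (hi.1.const_mul _).integrableOn hmeas ?_
    intro x hx
    have h2 := UINT_cmp hμ hK hx
    have h3 := pow_le_pow_left₀ (UINT_U_nonneg _ _ _) h2 3
    refine h3.trans (le_of_eq ?_)
    rw [mul_pow, div_pow]
    norm_num
    left
    ring
  have h2 : ∫ x in {x | K * μ ≤ ‖x - z‖}, 64 / K ^ 6 * U (K * μ) z x ^ 3 ≤
      ∫ x, 64 / K ^ 6 * U (K * μ) z x ^ 3 :=
    setIntegral_le_integral (hi.1.const_mul _)
      (Filter.Eventually.of_forall fun x =>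
        mul_nonneg (by positivity) (pow_nonneg (UINT_U_nonneg _ _ _) 3))
  refine (h1.trans h2).trans ?_
  rw [integral_const_mul, hi.2]
  have h6 : K ≤ K ^ 6 := by
    calc K = K ^ 1 := (pow_one K).symm
      _ ≤ K ^ 6 := pow_le_pow_right₀ hK1 (by norm_num)
  rw [div_mul_eq_mul_div, div_le_iff₀ (by positivity)]
  rw [div_le_iff₀ hε] at hK2
  nlinarith

end Pool.Helper4.BT
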